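import Pool.Agent.H98.EX.PTargets

/-!
# Exact constant of the copolymer slope, row LLP: the sums over paths
-/

set_option autoImplicit false

open MeasureTheory ProbabilityTheory Filter Topology
open scoped ENNReal
open Pool.Agent.H95 Pool.Agent.H95.Cop
open Pool.Agent.H55.CG (Mo)
open Pool.Agent.H96.Cop (pk)
open Pool.Agent.H99.CE (PF PF_zero PF_succ WR)

namespace Pool.Agent.H79.EX

open Pool.Agent.H98.EX

theorem H_meas (a b : ℕ) : Measurable fun x : ℕ → ℝ => H x a b := by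
  unfold H
  exact Finset.measurable_sum _ fun i _ => measurable_pi_apply i

theorem H_dep (n : ℕ) {x x' : ℕ → ℝ} (h : ∀ i < n, x i = x' i) : H x 0 n = H x' 0 n := by
  unfold H
  exact Finset.sum_congr rfl fun i hi => h i (Finset.mem_Ico.1 hi).2

theorem cosh_meas (n : ℕ) : Measurable fun x : ℕ → ℝ => Real.cosh (H x 0 n / 2) :=
  Real.measurable_cosh.comp ((H_meas 0 n).div_const 2)

theorem wc_reg (K : PMF ℕ) (k : ℕ) : WR (wc K k) := by
  intro n
  by_cases hn : n ≤ k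
  · have he : wc K k n = fun x => pk K n * ENNReal.ofReal (Real.cosh (H x 0 n / 2)) := by
      funext x
      unfold wc
      rw [if_pos hn]
    rw [he]
    refine ⟨(cosh_meas n).ennreal_ofReal.const_mul _, ?_, ?_⟩
    · intro x x' h
      show pk K n * ENNReal.ofReal (Real.cosh (H x 0 n / 2)) =
        pk K n * ENNReal.ofReal (Real.cosh (H x' 0 n / 2))
      rw [H_dep n h]
    · intro x
      exact ENNReal.mul_ne_top ENNReal.ofReal_ne_top ENNReal.ofReal_ne_top
  · have he : wc K k n = fun _ => 0 := by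
      funext x
      unfold wc
      rw [if_neg hn]
    rw [he]
    exact ⟨measurable_const, fun _ _ _ => rfl, fun _ => ENNReal.zero_ne_top⟩

theorem LL_zero (P : Measure (ℕ → ℝ)) (c : ℝ) : LL P c fun _ => 0 := by
  unfold LL
  simp

theorem ll_cosh (hEXB : T_EXB) (ϖ : Measure ℝ) (k : ℕ) (ϑ σ τ ω : ℝ) (hP : PB ϖ k ϑ σ τ ω)
    (n : ℕ) (hn : 1 ≤ n) (hnk : n ≤ k) :
    LL (iid ϖ) ((ϑ ^ 2 + 2 * τ) * n / k)
      fun x => ENNReal.ofReal (Real.cosh (H x 0 n / 2)) := by
  obtain ⟨i1, i2, -, -, -, e1, -, e2, -⟩ := hEXB ϖ k ϑ σ τ ω hP n hn hnk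
  have hk : (0 : ℝ) < k := by exact_mod_cast hP.k1
  have hnk' : (n : ℝ) ≤ k := by exact_mod_cast hnk
  unfold LL
  have h1 : ∫⁻ x, ENNReal.ofReal (Real.cosh (H x 0 n / 2)) ∂(iid ϖ) =
      ENNReal.ofReal (∫ x : ℕ → ℝ, Real.cosh (H x 0 n / 2) ∂(iid ϖ)) :=
    (ofReal_integral_eq_lintegral_ofReal i1
      (ae_of_all _ fun x => (Real.cosh_pos _).le)).symm
  have h2 : ∫⁻ x, ENNReal.ofReal (Real.cosh (H x 0 n / 2)) ^ (2 : ℝ) ∂(iid ϖ) =
      ENNReal.ofReal (∫ x : ℕ → ℝ, Real.cosh (H x 0 n / 2) ^ 2 ∂(iid ϖ)) := by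
    rw [ofReal_integral_eq_lintegral_ofReal i2 (ae_of_all _ fun x => by positivity)]
    apply lintegral_congr
    intro x
    rw [ENNReal.ofReal_rpow_of_nonneg (Real.cosh_pos _).le (by norm_num), Real.rpow_two]
  rw [h1, h2]
  obtain ⟨y, hy⟩ : ∃ y : ℝ, y = ϑ / k * n := ⟨_, rfl⟩
  have hy2 : y ^ 2 ≤ ϑ ^ 2 * n / k := by
    have h3 : y ^ 2 = ϑ ^ 2 * n / k * (n / k) := by
      rw [hy]
      field_simp
    rw [h3]
    refine mul_le_of_le_one_right (by positivity) ?_
    rw [div_le_one hk]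
    exact hnk'
  have h4 : Real.exp (ϑ * n / k / 2 + τ * n / k) * (1 + (ϑ / k * n) ^ 2) ≤
      Real.exp ((ϑ ^ 2 + 2 * τ) * n / k) * Real.exp (ϑ * n / k / 2 - τ * n / k) := by
    rw [← hy, ← Real.exp_add]
    have h5 : 1 + y ^ 2 ≤ Real.exp (y ^ 2) := by
      have := Real.add_one_le_exp (y ^ 2)
      linarith
    calc Real.exp (ϑ * n / k / 2 + τ * n / k) * (1 + y ^ 2) ≤
          Real.exp (ϑ * n / k / 2 + τ * n / k) * Real.exp (y ^ 2) :=
          mul_le_mul_of_nonneg_left h5 (Real.exp_pos _).le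
      _ = Real.exp (ϑ * n / k / 2 + τ * n / k + y ^ 2) := (Real.exp_add _ _).symm
      _ ≤ _ := by
          apply Real.exp_le_exp.2
          have h6 : (ϑ ^ 2 + 2 * τ) * n / k = ϑ ^ 2 * n / k + 2 * (τ * n / k) := by ring
          rw [h6]
          linarith
  have h7 : Real.sqrt (∫ x : ℕ → ℝ, Real.cosh (H x 0 n / 2) ^ 2 ∂(iid ϖ)) ≤
      Real.exp (ϑ * n / k / 2 + τ * n / k) * (1 + (ϑ / k * n) ^ 2) :=
    Real.sqrt_le_iff.2 ⟨by positivity, e2⟩
  rw [ENNReal.ofReal_rpow_of_nonneg (integral_nonneg fun x => by positivity) (by norm_num),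
    ← Real.sqrt_eq_rpow, ← ENNReal.ofReal_mul (Real.exp_pos _).le]
  apply ENNReal.ofReal_le_ofReal
  refine h7.trans (h4.trans ?_)
  exact mul_le_mul_of_nonneg_left e1 (Real.exp_pos _).le

theorem pf_LLP (hPFM : Pool.Agent.H99.CE.T_PFM) (hEXB : T_EXB) (hLLC : T_LLC) : T_LLP := by
  intro K ϖ k ϑ σ τ ω hP
  obtain ⟨L1, L2, -, L4⟩ := hLLC
  have hreg := wc_reg K k
  have hPF := (hPFM.1 (wc K k) hreg).1
  haveI := hP.ep.prob
  have hw : ∀ n : ℕ, 1 ≤ n → LL (iid ϖ) ((ϑ ^ 2 + 2 * τ) * n / k) (wc K k n) := by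
    intro n hn
    by_cases hnk : n ≤ k
    · have he : wc K k n = fun x => pk K n * ENNReal.ofReal (Real.cosh (H x 0 n / 2)) := by
        funext x
        unfold wc
        rw [if_pos hnk]
      rw [he]
      exact L4 _ _ _ _ ENNReal.ofReal_ne_top (cosh_meas n).ennreal_ofReal
        (ll_cosh hEXB ϖ k ϑ σ τ ω hP n hn hnk)
    · have he : wc K k n = fun _ => 0 := by
        funext x
        unfold wc
        rw [if_neg hnk]
      rw [he]
      exact LL_zero _ _
  refine ⟨hw, fun s => ?_⟩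
  induction s using Nat.strong_induction_on with
  | _ s ih =>
    rcases s with _ | s
    · have he : PF (wc K k) 0 = fun _ => 1 := by
        funext x
        exact PF_zero _ x
      rw [he]
      unfold LL
      simp
    · have he : PF (wc K k) (s + 1) = fun x => ∑ j ∈ Finset.range (s + 1),
          wc K k (j + 1) x * PF (wc K k) (s - j) (shift (j + 1) x) := by
        funext x
        exact PF_succ _ s x
      rw [he]
      apply L1
      · intro j
        exact ((hreg (j + 1)).1).mul ((hPF (s - j)).1.comp (measurable_shift (j + 1)))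
      · intro j hj
        have h1 := L2 ϖ (j + 1) (wc K k (j + 1)) (PF (wc K k) (s - j)) _ _ (hreg (j + 1)).1
          (hreg (j + 1)).2.1 (hPF (s - j)).1 (hw (j + 1) (by omega)) (ih (s - j) (by omega))
        have h2 : (ϑ ^ 2 + 2 * τ) * ((j + 1 : ℕ) : ℝ) / k + (ϑ ^ 2 + 2 * τ) * ((s - j : ℕ) : ℝ) / k =
            (ϑ ^ 2 + 2 * τ) * ((s + 1 : ℕ) : ℝ) / k := by
          rw [Nat.cast_sub (by omega)]
          push_cast
          ring
        rw [h2] at h1
        exact h1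

end Pool.Agent.H79.EX
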